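import Pool.Agent.H98.Cubic.Targets
import Pool.Agent.H98.Cubic.Basic
import Pool.Agent.H33.VmvDivisor

/-! Module [Div] of the cubic moment of Hardy's function. -/

set_option autoImplicit false

open Finset

namespace Pool.Agent.H89.Cubic

open Pool.Agent.H98.Cubic

/-- **[Div]** -/
theorem div_bound : TDiv := by
  intro ε hε
  obtain ⟨k0, hk0⟩ := exists_nat_ge (1 / ε)
  set k := k0 + 1 with hk
  have hkpos : 0 < k := Nat.succ_pos _
  obtain ⟨C₀, hC₀, hdiv⟩ := Pool.Agent.H33.Vmv.card_divisors_pow_le k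
  refine ⟨(C₀ : ℝ) ^ ((k : ℝ)⁻¹), Real.rpow_pos_of_pos (by exact_mod_cast hC₀) _, ?_⟩
  intro n hn
  have hn1 : (1 : ℝ) ≤ n := by exact_mod_cast hn
  have h1 : ((n.divisors.card : ℝ)) ^ k ≤ C₀ * (n : ℝ) := by
    exact_mod_cast hdiv n hn
  have h3 : ((n.divisors.card : ℝ) ^ k) ^ ((k : ℝ)⁻¹) ≤
      ((C₀ : ℝ) * (n : ℝ)) ^ ((k : ℝ)⁻¹) :=
    Real.rpow_le_rpow (by positivity) h1 (by positivity)
  rw [Real.pow_rpow_inv_natCast (by positivity) hkpos.ne',
    Real.mul_rpow (by positivity) (by positivity)] at h3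
  refine h3.trans ?_
  apply mul_le_mul_of_nonneg_left _ (by positivity)
  apply Real.rpow_le_rpow_of_exponent_le hn1
  rw [inv_le_comm₀ (by exact_mod_cast hkpos) hε]
  have h5 : (k : ℝ) = k0 + 1 := by rw [hk]; push_cast; ring
  rw [h5, ← one_div]
  linarith

end Pool.Agent.H89.Cubic
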