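import Pool.Agent.H98.Cubic.Targets
import Pool.Agent.H98.Cubic.Basic
import Pool.Agent.H89.Cubic.Div

/-! Module [Box] of the cubic moment of Hardy's function. -/

set_option autoImplicit false

open Finset

namespace Pool.Agent.H89.Cubic

open Pool.Agent.H98.Cubic

/-- pointwise bound for one fraction `p/q`, in real variables: `N = a^10`, `Y = y^2`. -/
theorem pq_bound (a y K G Q p q D l lG lY : ℝ) (ha : 1 ≤ a) (hy : 0 < y) (hK : 0 < K)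
    (hG : 0 ≤ G) (hGK : G ≤ K) (hGQ : G * Q ≤ 2 * K) (hQ : Q = y / (2 * a)) (hq : 1 ≤ q)
    (hqQ : q ≤ Q) (hp : 1 ≤ p) (hpy : p * y ^ 2 ≤ 3 * q * a ^ 10) (hKy : K ≤ 2 * y ^ 2)
    (hD : 1 ≤ D) (hl : 1 ≤ l) (hlG0 : 0 ≤ lG) (hlG : lG ≤ l) (hlY : lY ≤ l) :
    (D * (y ^ 2 * Real.sqrt (p * G / K)) *
        (K / q + G * (1 + G ^ 3 * (y ^ 2) ^ 2 / (p * q ^ 2 * K ^ 3)) * lG) +
      K / q * y ^ 2 + K / q * Real.sqrt (K * G / p) + K * G * lY) * (3 * q * a ^ 10 / y ^ 2) ≤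
      D * l * (27 * (a ^ 15 * K / y) + 768 * (K * a ^ 14 / q) + 21 * (K * a ^ 10)) := by
  have hq0 : 0 < q := by linarith
  have hp0 : 0 < p := by linarith
  have ha0 : 0 < a := by linarith
  have hQ0 : 0 < Q := by linarith
  have hl0 : 0 < l := by linarith
  have hD0 : 0 < D := by linarith
  set s : ℝ := Real.sqrt (p * G / K) with hs
  have hs0 : 0 ≤ s := Real.sqrt_nonneg _
  -- `s ≤ 3 a^5 / y`
  have hs1 : s ≤ 3 * a ^ 5 / y := by
    rw [hs]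
    apply Real.sqrt_le_iff.mpr
    refine ⟨by positivity, ?_⟩
    rw [div_pow, div_le_div_iff₀ hK (by positivity)]
    have h1 : p * G * y ^ 2 ≤ 3 * q * a ^ 10 * G := by
      calc p * G * y ^ 2 = (p * y ^ 2) * G := by ring
        _ ≤ (3 * q * a ^ 10) * G := mul_le_mul_of_nonneg_right hpy hG
    have h2 : q * G ≤ 2 * K := (mul_le_mul_of_nonneg_right hqQ hG).trans (by linarith)
    have h3 : 3 * q * a ^ 10 * G ≤ 6 * K * a ^ 10 := by
      calc 3 * q * a ^ 10 * G = (3 * a ^ 10) * (q * G) := by ring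
        _ ≤ (3 * a ^ 10) * (2 * K) := mul_le_mul_of_nonneg_left h2 (by positivity)
        _ = 6 * K * a ^ 10 := by ring
    have h4 : (3 * a ^ 5) ^ 2 * K = 9 * K * a ^ 10 := by ring
    rw [h4]
    have h5 : 0 < K * a ^ 10 := by positivity
    linarith
  -- `s ≤ p`
  have hs2 : s ≤ p := by
    rw [hs]
    apply Real.sqrt_le_iff.mpr
    refine ⟨hp0.le, ?_⟩
    rw [div_le_iff₀ hK]
    have h1 : p * G ≤ p * K := mul_le_mul_of_nonneg_left hGK hp0.le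
    nlinarith [mul_pos hp0 hK]
  set R : ℝ := 3 * q * a ^ 10 / y ^ 2 with hR
  have hR0 : 0 ≤ R := by positivity
  have hYR : y ^ 2 * R = 3 * q * a ^ 10 := by rw [hR]; field_simp
  -- T1
  have T1 : D * (y ^ 2 * s) * (K / q) * R ≤ D * l * (9 * (a ^ 15 * K / y)) := by
    calc D * (y ^ 2 * s) * (K / q) * R = D * s * (K / q) * (y ^ 2 * R) := by ring
      _ = (3 * D * K * a ^ 10) * s := by rw [hYR]; field_simp
      _ ≤ (3 * D * K * a ^ 10) * (3 * a ^ 5 / y) :=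
          mul_le_mul_of_nonneg_left hs1 (by positivity)
      _ = D * 1 * (9 * (a ^ 15 * K / y)) := by field_simp; ring
      _ ≤ D * l * (9 * (a ^ 15 * K / y)) := by
          apply mul_le_mul_of_nonneg_right _ (by positivity)
          exact mul_le_mul_of_nonneg_left hl hD0.le
  -- T2
  have hqG : q * G ≤ 2 * K := (mul_le_mul_of_nonneg_right hqQ hG).trans (by linarith)
  have T2 : D * (y ^ 2 * s) * (G * lG) * R ≤ D * l * (18 * (a ^ 15 * K / y)) := by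
    calc D * (y ^ 2 * s) * (G * lG) * R = D * s * G * lG * (y ^ 2 * R) := by ring
      _ = (3 * D * a ^ 10) * s * (q * G) * lG := by rw [hYR]; ring
      _ ≤ (3 * D * a ^ 10) * (3 * a ^ 5 / y) * (2 * K) * l := by
          gcongr
      _ = D * l * (18 * (a ^ 15 * K / y)) := by field_simp; ring
  -- T3
  have hG4 : G ^ 4 * y ^ 4 ≤ 256 * a ^ 4 * K ^ 4 := by
    have h1 : G * y ≤ 4 * a * K := by
      have : G * Q = G * y / (2 * a) := by rw [hQ]; ring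
      rw [this, div_le_iff₀ (by positivity)] at hGQ
      linarith
    have h2 : 0 ≤ G * y := by positivity
    calc G ^ 4 * y ^ 4 = (G * y) ^ 4 := by ring
      _ ≤ (4 * a * K) ^ 4 := pow_le_pow_left₀ h2 h1 4
      _ = 256 * a ^ 4 * K ^ 4 := by ring
  have T3 : D * (y ^ 2 * s) * (G * (G ^ 3 * (y ^ 2) ^ 2 / (p * q ^ 2 * K ^ 3)) * lG) * R ≤
      D * l * (768 * (K * a ^ 14 / q)) := by
    calc D * (y ^ 2 * s) * (G * (G ^ 3 * (y ^ 2) ^ 2 / (p * q ^ 2 * K ^ 3)) * lG) * R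
        = D * (y ^ 2 * R) * (G ^ 4 * y ^ 4) * lG * (s / p) / (q ^ 2 * K ^ 3) := by
          field_simp
      _ = 3 * D * a ^ 10 * (G ^ 4 * y ^ 4) * lG * (s / p) / (q * K ^ 3) := by
          rw [hYR]; field_simp
      _ ≤ 3 * D * a ^ 10 * (256 * a ^ 4 * K ^ 4) * l * 1 / (q * K ^ 3) := by
          have : s / p ≤ 1 := by rw [div_le_one hp0]; exact hs2
          gcongr
      _ = D * l * (768 * (K * a ^ 14 / q)) := by field_simp; ring
  -- T4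
  have hDl : 1 ≤ D * l := by nlinarith
  have T4 : K / q * y ^ 2 * R ≤ D * l * (3 * (K * a ^ 10)) := by
    calc K / q * y ^ 2 * R = K / q * (y ^ 2 * R) := by ring
      _ = 1 * (3 * (K * a ^ 10)) := by rw [hYR]; field_simp
      _ ≤ D * l * (3 * (K * a ^ 10)) := mul_le_mul_of_nonneg_right hDl (by positivity)
  -- T5
  have hKR : K * R ≤ 6 * q * a ^ 10 := by
    calc K * R ≤ 2 * y ^ 2 * R := mul_le_mul_of_nonneg_right hKy hR0
      _ = 6 * q * a ^ 10 := by rw [mul_assoc, hYR]; ring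
  have T5 : K / q * Real.sqrt (K * G / p) * R ≤ D * l * (6 * (K * a ^ 10)) := by
    have h1 : Real.sqrt (K * G / p) ≤ K := by
      apply Real.sqrt_le_iff.mpr
      refine ⟨hK.le, ?_⟩
      rw [div_le_iff₀ hp0]
      have h2 : K * G ≤ K * K := mul_le_mul_of_nonneg_left hGK hK.le
      nlinarith [mul_pos hK hK]
    calc K / q * Real.sqrt (K * G / p) * R ≤ K / q * K * R := by gcongr
      _ = K / q * (K * R) := by ring
      _ ≤ K / q * (6 * q * a ^ 10) := mul_le_mul_of_nonneg_left hKR (by positivity)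
      _ = 1 * (6 * (K * a ^ 10)) := by field_simp
      _ ≤ D * l * (6 * (K * a ^ 10)) := mul_le_mul_of_nonneg_right hDl (by positivity)
  -- T6
  have T6 : K * G * lY * R ≤ D * l * (12 * (K * a ^ 10)) := by
    calc K * G * lY * R = (K * R) * G * lY := by ring
      _ ≤ (K * R) * G * l := by gcongr
      _ ≤ (6 * q * a ^ 10) * G * l := by gcongr
      _ = (6 * a ^ 10) * (q * G) * l := by ring
      _ ≤ (6 * a ^ 10) * (2 * K) * l := by gcongr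
      _ = 1 * (l * (12 * (K * a ^ 10))) := by ring
      _ ≤ D * (l * (12 * (K * a ^ 10))) := mul_le_mul_of_nonneg_right hD (by positivity)
      _ = D * l * (12 * (K * a ^ 10)) := by ring
  have e : (D * (y ^ 2 * s) *
        (K / q + G * (1 + G ^ 3 * (y ^ 2) ^ 2 / (p * q ^ 2 * K ^ 3)) * lG) +
      K / q * y ^ 2 + K / q * Real.sqrt (K * G / p) + K * G * lY) * R =
      D * (y ^ 2 * s) * (K / q) * R + D * (y ^ 2 * s) * (G * lG) * R +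
      D * (y ^ 2 * s) * (G * (G ^ 3 * (y ^ 2) ^ 2 / (p * q ^ 2 * K ^ 3)) * lG) * R +
      K / q * y ^ 2 * R + K / q * Real.sqrt (K * G / p) * R + K * G * lY * R := by ring
  rw [e]
  linarith

theorem BS_eq_zero (N : ℝ) (K₀ Y : ℕ) (c₁ c₂ c₃ : ℝ) (hN : 1 ≤ N)
    (h : ¬ ((K₀ : ℝ) ≤ 2 * Y ∧ (Y : ℝ) ≤ Real.sqrt 2 * N ∧ (K₀ : ℝ) ≤ Real.sqrt 2 * N)) :
    BS N K₀ Y c₁ c₂ c₃ = 0 := by
  unfold BS
  rw [Finset.filter_false_of_mem]
  · simp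
  intro x hx hx2
  obtain ⟨⟨h1, h2, h3, h4⟩, _⟩ := hx2
  rw [mem_product, mem_product, mem_Ico, mem_Ico, mem_Icc] at hx
  obtain ⟨⟨a1, a2⟩, ⟨b1, b2⟩, c1, c2⟩ := hx
  have hu : (x.2.2 : ℝ) ≤ Real.sqrt 2 * N := (Nat.le_floor_iff (by positivity)).mp c2
  have hu1 : (1 : ℝ) ≤ x.2.2 := by exact_mod_cast c1
  apply h
  have hk : (x.1 : ℝ) ≤ x.2.2 := by exact_mod_cast h2
  have hk0 : (K₀ : ℝ) ≤ x.1 := by exact_mod_cast a1
  refine ⟨?_, ?_, ?_⟩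
  · have : K₀ ≤ 2 * Y := by omega
    exact_mod_cast this
  · have hY : (Y : ℝ) ≤ x.2.1 := by exact_mod_cast b1
    have h5 : (x.2.1 : ℝ) * x.2.2 ≤ Real.sqrt 2 * N * x.2.2 :=
      h4.trans (mul_le_mul_of_nonneg_left hk (by positivity))
    have h6 : (x.2.1 : ℝ) ≤ Real.sqrt 2 * N := le_of_mul_le_mul_right h5 (by linarith)
    linarith
  · linarith

theorem BS_trivial (N : ℝ) (K₀ Y : ℕ) (c₁ c₂ c₃ : ℝ) (hN : 1 ≤ N) :
    ‖BS N K₀ Y c₁ c₂ c₃‖ ≤ K₀ * (Y * (Real.sqrt 2 * N)) := by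
  unfold BS
  refine (norm_sum_le _ _).trans ?_
  simp only [norm_ee, sum_const, nsmul_eq_mul, mul_one]
  refine (Nat.cast_le.mpr (card_filter_le _ _)).trans ?_
  rw [card_product, card_product, Nat.card_Ico, Nat.card_Ico, Nat.card_Icc]
  have h1 : 2 * K₀ - K₀ = K₀ := by omega
  have h2 : 2 * Y - Y = Y := by omega
  rw [h1, h2, Nat.add_sub_cancel]
  push_cast
  have h3 : ((⌊Real.sqrt 2 * N⌋₊ : ℕ) : ℝ) ≤ Real.sqrt 2 * N := Nat.floor_le (by positivity)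
  gcongr

theorem sum_inv_le (n : ℕ) : ∑ q ∈ Icc 1 n, (1 : ℝ) / q ≤ 1 + Real.log n := by
  have h1 := harmonic_le_one_add_log n
  rw [harmonic_eq_sum_Icc] at h1
  push_cast at h1
  simpa [one_div] using h1

open scoped Classical in
/-- the main case. -/
theorem box_main (hDec : TDec) (C₁ : ℝ) (hC₁ : 0 < C₁)
    (hqp : ∀ (N c₁ D : ℝ) (p q K₀ Y G : ℕ) (O : ℤ → Set ℕ),
      1 ≤ N → 1 ≤ q → q ≤ p → Nat.Coprime p q → q ≤ K₀ → 1 ≤ Y → 1 ≤ G → 2 * G ≤ K₀ →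
      (∀ g : ℤ, g ≠ 0 → (O g).OrdConnected) →
      (∀ n : ℕ, 1 ≤ n → (n : ℝ) ≤ 10 * p * (G : ℝ) ^ 2 * (Y : ℝ) ^ 2 / (q * (K₀ : ℝ) ^ 2) + G →
        (n.divisors.card : ℝ) ≤ D) →
      ‖∑ g ∈ Icc (-(G : ℤ)) G,
          ∑ k ∈ (Ico K₀ (2 * K₀)).filter (fun k : ℕ => (q : ℤ) ∣ (p : ℤ) * k + g ∧ k ∈ O g),
            Sy (yLo N Y p q g k) (yHi N c₁ Y p q g k) (((p : ℝ) * k + g) / (q * k))‖
        ≤ C₁ * (D * (Y * Real.sqrt ((p : ℝ) * G / K₀)) *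
              ((K₀ : ℝ) / q + G *
                (1 + (G : ℝ) ^ 3 * (Y : ℝ) ^ 2 / (p * (q : ℝ) ^ 2 * (K₀ : ℝ) ^ 3)) *
                (1 + Real.log G)) +
            (K₀ : ℝ) / q * Y + (K₀ : ℝ) / q * Real.sqrt ((K₀ : ℝ) * G / p) +
            K₀ * G * (1 + Real.log (p * Y))))
    (N D : ℝ) (K₀ Y : ℕ) (c₁ c₂ c₃ : ℝ) (hN : (128 : ℝ) ^ 5 ≤ N) (hY : 1 ≤ Y)
    (hK : N ^ (2 / 5 : ℝ) ≤ K₀) (h1 : (K₀ : ℝ) ≤ 2 * Y) (h2 : (Y : ℝ) ≤ Real.sqrt 2 * N)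
    (h3 : (K₀ : ℝ) ≤ Real.sqrt 2 * N) (hD1 : 1 ≤ D)
    (hD : ∀ n : ℕ, 1 ≤ n → (n : ℝ) ≤ 17 * N ^ 2 → (n.divisors.card : ℝ) ≤ D) :
    ‖BS N K₀ Y c₁ c₂ c₃‖ ≤ 803 * C₁ * D * (1 + Real.log (4 * N ^ 2)) ^ 2 *
      (K₀ * N ^ (7 / 5 : ℝ)) := by
  have hN1 : (1 : ℝ) ≤ N := le_trans (by norm_num) hN
  have hN0 : (0 : ℝ) < N := by linarith
  have hs2 : Real.sqrt 2 ≤ 1.5 := by
    rw [Real.sqrt_le_left (by norm_num)]; norm_num
  -- the variable `a`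
  set a : ℝ := N ^ (1 / 10 : ℝ) with ha
  have ha1 : 1 ≤ a := Real.one_le_rpow hN1 (by norm_num)
  have ha0 : 0 < a := by linarith
  have a10 : a ^ 10 = N := by
    rw [ha, ← Real.rpow_natCast, ← Real.rpow_mul hN0.le]; norm_num
  have a4 : a ^ 4 = N ^ (2 / 5 : ℝ) := by
    rw [ha, ← Real.rpow_natCast, ← Real.rpow_mul hN0.le]; norm_num
  have a14 : a ^ 14 = N ^ (7 / 5 : ℝ) := by
    rw [ha, ← Real.rpow_natCast, ← Real.rpow_mul hN0.le]; norm_num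
  have a2 : (128 : ℝ) ≤ a ^ 2 := by
    have h4 : (128 : ℝ) ^ 5 ≤ (a ^ 2) ^ 5 := by
      calc (128 : ℝ) ^ 5 ≤ N := hN
        _ = (a ^ 2) ^ 5 := by rw [← a10]; ring
    exact le_of_pow_le_pow_left₀ (by norm_num) (by positivity) h4
  rw [← a4] at hK
  rw [← a14]
  have hY1 : (1 : ℝ) ≤ Y := by exact_mod_cast hY
  set y : ℝ := Real.sqrt Y with hy
  have hyY : y ^ 2 = Y := Real.sq_sqrt (by positivity)
  have hy0 : 0 < y := Real.sqrt_pos.mpr (by positivity)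
  have hKr : (1 : ℝ) ≤ K₀ := (one_le_pow₀ ha1).trans hK
  have hK0 : (0 : ℝ) < K₀ := by linarith
  -- the parameter `Q`
  set Q : ℝ := y / (2 * a) with hQ
  have hQ0 : 0 < Q := by positivity
  have hY2N : (Y : ℝ) ≤ 2 * a ^ 10 := by
    rw [a10]
    exact h2.trans (mul_le_mul_of_nonneg_right (hs2.trans (by norm_num)) hN0.le)
  have hQa : Q ≤ a ^ 4 := by
    rw [hQ, div_le_iff₀ (by positivity)]
    have h4 : y ^ 2 ≤ (2 * a ^ 5) ^ 2 := by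
      rw [hyY]
      have : (2 * a ^ 5) ^ 2 = 4 * a ^ 10 := by ring
      rw [this]
      have : 0 < a ^ 10 := by positivity
      linarith
    have h5 : y ≤ 2 * a ^ 5 := le_of_pow_le_pow_left₀ (by norm_num) (by positivity) h4
    calc y ≤ 2 * a ^ 5 := h5
      _ = a ^ 4 * (2 * a) := by ring
  have hQ4 : 4 ≤ Q := by
    rw [hQ, le_div_iff₀ (by positivity)]
    have h4 : (8 * a) ^ 2 ≤ y ^ 2 := by
      rw [hyY]
      have h5 : a ^ 4 ≤ 2 * Y := hK.trans h1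
      have h6 : 128 * a ^ 2 ≤ a ^ 4 := by
        calc 128 * a ^ 2 ≤ a ^ 2 * a ^ 2 := mul_le_mul_of_nonneg_right a2 (by positivity)
          _ = a ^ 4 := by ring
      have h7 : (8 * a) ^ 2 = 64 * a ^ 2 := by ring
      rw [h7]; linarith
    have h5 : 8 * a ≤ y := le_of_pow_le_pow_left₀ (by norm_num) hy0.le h4
    linarith
  have hQK : Q ≤ K₀ := hQa.trans hK
  -- the parameter `G`
  set G : ℕ := ⌊2 * (K₀ : ℝ) / Q⌋₊ with hG
  have hGle : (G : ℝ) ≤ 2 * (K₀ : ℝ) / Q := Nat.floor_le (by positivity)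
  have hGQ : (G : ℝ) * Q ≤ 2 * K₀ := by rwa [le_div_iff₀ hQ0] at hGle
  have hG0 : (0 : ℝ) ≤ G := Nat.cast_nonneg _
  have hG2r : 2 * (G : ℝ) ≤ K₀ := by
    have : (G : ℝ) * 4 ≤ G * Q := mul_le_mul_of_nonneg_left hQ4 hG0
    linarith
  have hG2 : 2 * G ≤ K₀ := by exact_mod_cast hG2r
  have hG1 : 1 ≤ G := by
    rw [hG]
    apply Nat.le_floor
    rw [le_div_iff₀ hQ0]
    push_cast
    linarith
  have hGK : (G : ℝ) ≤ K₀ := by linarith
  have hKQG : 2 * (K₀ : ℝ) ≤ Q * (G + 1) := by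
    have h4 := Nat.lt_floor_add_one (2 * (K₀ : ℝ) / Q)
    rw [← hG, div_lt_iff₀ hQ0] at h4
    linarith
  have hK1 : 1 ≤ K₀ := by exact_mod_cast hKr
  obtain ⟨hO, hBS⟩ := hDec N Q c₁ c₂ c₃ K₀ Y G hN1 hQ4 hK1 hY hKQG
  rw [hBS]
  -- logarithms
  set l : ℝ := 1 + Real.log (4 * N ^ 2) with hl
  have hl1 : 1 ≤ l := by
    have : 0 ≤ Real.log (4 * N ^ 2) := Real.log_nonneg (by nlinarith only [hN1])
    linarith
  have hs2N : Real.sqrt 2 * N ≤ 2 * N :=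
    mul_le_mul_of_nonneg_right (hs2.trans (by norm_num)) hN0.le
  have hK2N : (K₀ : ℝ) ≤ 2 * N := h3.trans hs2N
  have hYN : (Y : ℝ) ≤ 2 * N := h2.trans hs2N
  have hNN : N ≤ N ^ 2 := by nlinarith only [hN1]
  have hlog : ∀ x : ℝ, 1 ≤ x → x ≤ 4 * N ^ 2 → 1 + Real.log x ≤ l := by
    intro x hx hx2
    have := Real.log_le_log (by linarith) hx2
    linarith
  have hG1r : (1 : ℝ) ≤ G := by exact_mod_cast hG1
  have hlG : 1 + Real.log (G : ℝ) ≤ l :=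
    hlog _ hG1r (by linarith only [hG2r, hK2N, hNN, sq_nonneg N])
  have hlG0 : 0 ≤ 1 + Real.log (G : ℝ) := by
    have := Real.log_nonneg hG1r
    linarith
  have hQN : Q ≤ N := by
    have : a ^ 4 ≤ a ^ 10 := pow_le_pow_right₀ ha1 (by norm_num)
    rw [← a10]; linarith
  -- the bound for fixed q
  have hq_bound : ∀ q ∈ Icc 1 ⌊Q⌋₊,
      ‖∑ p ∈ (Icc q ⌊3 * q * N / Y⌋₊).filter (fun p : ℕ => Nat.Coprime p q),
        ∑ g ∈ Icc (-(G : ℤ)) G,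
          ∑ k ∈ (Ico K₀ (2 * K₀)).filter
              (fun k : ℕ => (q : ℤ) ∣ (p : ℤ) * k + g ∧ k ∈ OO Q c₂ c₃ p q g),
            Sy (yLo N Y p q g k) (yHi N c₁ Y p q g k) (((p : ℝ) * k + g) / (q * k))‖ ≤
      C₁ * (D * l * (27 * (a ^ 15 * K₀ / y) + 768 * (K₀ * a ^ 14 / q) + 21 * (K₀ * a ^ 10))) := by
    intro q hq
    rw [mem_Icc] at hq
    obtain ⟨hq1, hq2⟩ := hq
    have hqQ : (q : ℝ) ≤ Q := (Nat.le_floor_iff hQ0.le).mp hq2
    have hq1r : (1 : ℝ) ≤ q := by exact_mod_cast hq1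
    set R : ℝ := 3 * q * N / Y with hR
    have hR0 : 0 < R := by positivity
    have hRe : R = 3 * q * a ^ 10 / y ^ 2 := by rw [hR, a10, hyY]
    set B : ℝ := D * l * (27 * (a ^ 15 * K₀ / y) + 768 * (K₀ * a ^ 14 / q) +
      21 * (K₀ * a ^ 10)) with hB
    have hB0 : 0 ≤ B := by positivity
    have hpt : ∀ p ∈ (Icc q ⌊R⌋₊).filter (fun p : ℕ => Nat.Coprime p q),
        ‖∑ g ∈ Icc (-(G : ℤ)) G,
          ∑ k ∈ (Ico K₀ (2 * K₀)).filter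
              (fun k : ℕ => (q : ℤ) ∣ (p : ℤ) * k + g ∧ k ∈ OO Q c₂ c₃ p q g),
            Sy (yLo N Y p q g k) (yHi N c₁ Y p q g k) (((p : ℝ) * k + g) / (q * k))‖ ≤
        C₁ * (B / R) := by
      intro p hp
      rw [mem_filter, mem_Icc] at hp
      obtain ⟨⟨hqp', hpR⟩, hcop⟩ := hp
      have hpRr : (p : ℝ) ≤ R := (Nat.le_floor_iff hR0.le).mp hpR
      have hp1 : 1 ≤ p := hq1.trans hqp'
      have hp1r : (1 : ℝ) ≤ p := by exact_mod_cast hp1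
      have hpY : (p : ℝ) * Y ≤ 3 * q * N := by
        rw [hR, le_div_iff₀ (by positivity)] at hpRr
        exact hpRr
      have hqK : q ≤ K₀ := by
        have : (q : ℝ) ≤ K₀ := hqQ.trans hQK
        exact_mod_cast this
      have hdc : ∀ n : ℕ, 1 ≤ n →
          (n : ℝ) ≤ 10 * p * (G : ℝ) ^ 2 * (Y : ℝ) ^ 2 / (q * (K₀ : ℝ) ^ 2) + G →
          (n.divisors.card : ℝ) ≤ D := by
        intro n hn1 hn2
        apply hD n hn1
        refine hn2.trans ?_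
        have h4 : 10 * (p : ℝ) * (G : ℝ) ^ 2 * (Y : ℝ) ^ 2 / (q * (K₀ : ℝ) ^ 2) ≤
            15 * N ^ 2 := by
          rw [div_le_iff₀ (by positivity)]
          have h5 : (G : ℝ) ^ 2 * 4 ≤ (K₀ : ℝ) ^ 2 := by
            have := pow_le_pow_left₀ (by positivity) hG2r 2
            linarith
          calc 10 * (p : ℝ) * (G : ℝ) ^ 2 * (Y : ℝ) ^ 2
              = 10 * ((p : ℝ) * Y) * Y * (G : ℝ) ^ 2 := by ring
            _ ≤ 10 * (3 * q * N) * (2 * N) * ((K₀ : ℝ) ^ 2 / 4) := by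
                gcongr
                linarith
            _ = 15 * N ^ 2 * (q * (K₀ : ℝ) ^ 2) := by ring
        have h5 : (G : ℝ) ≤ 2 * N ^ 2 := by linarith only [hG2r, hK2N, hNN, sq_nonneg N]
        linarith only [h4, h5]
      have key := hqp N c₁ D p q K₀ Y G (fun g => OO Q c₂ c₃ p q g) hN1 hq1 hqp' hcop hqK hY hG1
        hG2 (fun g hg => hO p q g hq1 hqQ hcop hg) hdc
      refine key.trans ?_
      apply mul_le_mul_of_nonneg_left _ hC₁.le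
      rw [le_div_iff₀ hR0]
      have hlY : 1 + Real.log ((p : ℝ) * Y) ≤ l := by
        apply hlog
        · exact one_le_mul_of_one_le_of_one_le hp1r hY1
        · refine hpY.trans ?_
          have h4 : (q : ℝ) * N ≤ N * N := mul_le_mul_of_nonneg_right (hqQ.trans hQN) hN0.le
          linarith only [h4, sq_nonneg N]
      have h4 := pq_bound a y K₀ G Q p q D l (1 + Real.log (G : ℝ)) (1 + Real.log ((p : ℝ) * Y))
        ha1 hy0 hK0 hG0 hGK hGQ hQ hq1r hqQ hp1r (by rw [hyY, a10]; exact hpY)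
        (by rw [hyY]; exact h1) hD1 hl1 hlG0 hlG hlY
      rw [hyY] at h4
      rw [hRe, hyY, hB]
      exact h4
    refine (norm_sum_le _ _).trans ((sum_le_sum hpt).trans ?_)
    rw [sum_const, nsmul_eq_mul]
    have hcard : (((Icc q ⌊R⌋₊).filter (fun p : ℕ => Nat.Coprime p q)).card : ℝ) ≤ R := by
      have h4 : ((Icc q ⌊R⌋₊).filter (fun p : ℕ => Nat.Coprime p q)).card ≤ ⌊R⌋₊ := by
        refine (card_filter_le _ _).trans ?_
        rw [Nat.card_Icc]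
        omega
      exact (Nat.cast_le.mpr h4).trans (Nat.floor_le hR0.le)
    calc (((Icc q ⌊R⌋₊).filter (fun p : ℕ => Nat.Coprime p q)).card : ℝ) * (C₁ * (B / R))
        ≤ R * (C₁ * (B / R)) := mul_le_mul_of_nonneg_right hcard (by positivity)
      _ = C₁ * B := by field_simp
  refine (norm_sum_le _ _).trans ((sum_le_sum hq_bound).trans ?_)
  rw [← mul_sum, ← mul_sum, sum_add_distrib, sum_add_distrib, sum_const, sum_const,
    Nat.card_Icc, Nat.add_sub_cancel, nsmul_eq_mul, nsmul_eq_mul]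
  have hfl : ((⌊Q⌋₊ : ℕ) : ℝ) ≤ Q := Nat.floor_le hQ0.le
  have e1 : ((⌊Q⌋₊ : ℕ) : ℝ) * (27 * (a ^ 15 * K₀ / y)) ≤ 14 * (K₀ * a ^ 14) := by
    calc ((⌊Q⌋₊ : ℕ) : ℝ) * (27 * (a ^ 15 * K₀ / y)) ≤ Q * (27 * (a ^ 15 * K₀ / y)) :=
          mul_le_mul_of_nonneg_right hfl (by positivity)
      _ = 27 / 2 * (K₀ * a ^ 14) := by rw [hQ]; field_simp
      _ ≤ 14 * (K₀ * a ^ 14) := mul_le_mul_of_nonneg_right (by norm_num) (by positivity)
  have e3 : ((⌊Q⌋₊ : ℕ) : ℝ) * (21 * (K₀ * a ^ 10)) ≤ 21 * (K₀ * a ^ 14) := by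
    calc ((⌊Q⌋₊ : ℕ) : ℝ) * (21 * (K₀ * a ^ 10)) ≤ a ^ 4 * (21 * (K₀ * a ^ 10)) :=
          mul_le_mul_of_nonneg_right (hfl.trans hQa) (by positivity)
      _ = 21 * (K₀ * a ^ 14) := by ring
  have e2 : ∑ q ∈ Icc 1 ⌊Q⌋₊, 768 * ((K₀ : ℝ) * a ^ 14 / q) ≤ 768 * (K₀ * a ^ 14) * l := by
    have h4 : ∑ q ∈ Icc 1 ⌊Q⌋₊, 768 * ((K₀ : ℝ) * a ^ 14 / q) =
        768 * (K₀ * a ^ 14) * ∑ q ∈ Icc 1 ⌊Q⌋₊, (1 : ℝ) / q := by
      rw [mul_sum]; apply sum_congr rfl; intro q _; ring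
    rw [h4]
    apply mul_le_mul_of_nonneg_left _ (by positivity)
    refine (sum_inv_le _).trans ?_
    have h5 : 1 ≤ ⌊Q⌋₊ := Nat.le_floor (by push_cast; linarith)
    apply hlog
    · exact_mod_cast h5
    · linarith only [hfl, hQN, hNN, sq_nonneg N]
  have hX : 0 ≤ (K₀ : ℝ) * a ^ 14 := by positivity
  have e4 : ((⌊Q⌋₊ : ℕ) : ℝ) * (27 * (a ^ 15 * K₀ / y)) +
      ∑ q ∈ Icc 1 ⌊Q⌋₊, 768 * ((K₀ : ℝ) * a ^ 14 / q) +
      ((⌊Q⌋₊ : ℕ) : ℝ) * (21 * (K₀ * a ^ 10)) ≤ 803 * l * (K₀ * a ^ 14) := by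
    have : K₀ * a ^ 14 ≤ l * (K₀ * a ^ 14) := le_mul_of_one_le_left hX hl1
    linarith only [this, e1, e2, e3]
  calc C₁ * (D * l * (((⌊Q⌋₊ : ℕ) : ℝ) * (27 * (a ^ 15 * K₀ / y)) +
      ∑ q ∈ Icc 1 ⌊Q⌋₊, 768 * ((K₀ : ℝ) * a ^ 14 / q) +
      ((⌊Q⌋₊ : ℕ) : ℝ) * (21 * (K₀ * a ^ 10)))) ≤
      C₁ * (D * l * (803 * l * (K₀ * a ^ 14))) := by
        apply mul_le_mul_of_nonneg_left _ hC₁.le
        exact mul_le_mul_of_nonneg_left e4 (by positivity)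
    _ = 803 * C₁ * D * l ^ 2 * (K₀ * a ^ 14) := by ring

/-- **[Box]** -/
theorem box (hDec : TDec) (hQP : TQP) (hDiv : TDiv) : TBox := by
  classical
  intro ε hε
  obtain ⟨C₁, hC₁, hqp⟩ := hQP
  obtain ⟨C₂, hC₂, hdiv⟩ := hDiv (ε / 4) (by positivity)
  set δ : ℝ := ε / 8 with hδ
  have hδ0 : 0 < δ := by positivity
  set Cl : ℝ := 1 + (4 : ℝ) ^ δ / δ with hCl
  have hCl0 : 0 < Cl := by positivity
  set CD : ℝ := (C₂ + 1) * (17 : ℝ) ^ (ε / 4) with hCD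
  have hCD0 : 0 < CD := by positivity
  refine ⟨4 * ((128 : ℝ) ^ 5) ^ 2 + 803 * C₁ * CD * Cl ^ 2, by positivity, ?_⟩
  intro N K₀ Y c₁ c₂ c₃ hN hY hK
  have hN0 : 0 < N := by linarith
  have hNε : 1 ≤ N ^ ε := Real.one_le_rpow hN hε.le
  have hN75 : 1 ≤ N ^ (7 / 5 : ℝ) := Real.one_le_rpow hN (by norm_num)
  have hK0 : (0 : ℝ) ≤ K₀ := Nat.cast_nonneg _
  by_cases h : ((K₀ : ℝ) ≤ 2 * Y ∧ (Y : ℝ) ≤ Real.sqrt 2 * N ∧ (K₀ : ℝ) ≤ Real.sqrt 2 * N)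
  swap
  · rw [BS_eq_zero N K₀ Y c₁ c₂ c₃ hN h, norm_zero]
    positivity
  obtain ⟨h1, h2, h3⟩ := h
  by_cases hbig : (128 : ℝ) ^ 5 ≤ N
  · -- main case
    set D : ℝ := (C₂ + 1) * (17 * N ^ 2) ^ (ε / 4) with hD
    have h17 : 1 ≤ (17 * N ^ 2) ^ (ε / 4) := Real.one_le_rpow (by nlinarith) (by positivity)
    have hD1 : 1 ≤ D := by nlinarith
    have hDn : ∀ n : ℕ, 1 ≤ n → (n : ℝ) ≤ 17 * N ^ 2 → (n.divisors.card : ℝ) ≤ D := by
      intro n hn1 hn2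
      refine (hdiv n hn1).trans ?_
      have h4 : (n : ℝ) ^ (ε / 4) ≤ (17 * N ^ 2) ^ (ε / 4) :=
        Real.rpow_le_rpow (by positivity) hn2 (by positivity)
      have h5 : 0 ≤ (n : ℝ) ^ (ε / 4) := by positivity
      nlinarith
    have key := box_main hDec C₁ hC₁ hqp N D K₀ Y c₁ c₂ c₃ hbig hY hK h1 h2 h3 hD1 hDn
    refine key.trans ?_
    have hNsq : (N ^ 2 : ℝ) = N ^ (2 : ℝ) := by norm_cast
    have hDe : D = CD * N ^ (ε / 2) := by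
      rw [hD, hCD, Real.mul_rpow (by norm_num) (by positivity), hNsq, ← Real.rpow_mul hN0.le]
      have : (2 : ℝ) * (ε / 4) = ε / 2 := by ring
      rw [this]; ring
    have hle : 1 + Real.log (4 * N ^ 2) ≤ Cl * N ^ (ε / 4) := by
      have h4 := Real.log_le_rpow_div (x := 4 * N ^ 2) (by positivity) hδ0
      have h5 : (4 * N ^ 2) ^ δ = (4 : ℝ) ^ δ * N ^ (ε / 4) := by
        rw [Real.mul_rpow (by norm_num) (by positivity), hNsq, ← Real.rpow_mul hN0.le]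
        have : (2 : ℝ) * δ = ε / 4 := by rw [hδ]; ring
        rw [this]
      rw [h5] at h4
      have h6 : 1 ≤ N ^ (ε / 4) := Real.one_le_rpow hN (by positivity)
      have h7 : Cl * N ^ (ε / 4) = N ^ (ε / 4) + (4 : ℝ) ^ δ * N ^ (ε / 4) / δ := by
        rw [hCl]; ring
      rw [h7]; linarith
    have hl0 : 0 ≤ 1 + Real.log (4 * N ^ 2) := by
      have : 0 ≤ Real.log (4 * N ^ 2) := Real.log_nonneg (by nlinarith)
      linarith
    have hl2 : (1 + Real.log (4 * N ^ 2)) ^ 2 ≤ Cl ^ 2 * N ^ (ε / 2) := by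
      calc (1 + Real.log (4 * N ^ 2)) ^ 2 ≤ (Cl * N ^ (ε / 4)) ^ 2 :=
            pow_le_pow_left₀ hl0 hle 2
        _ = Cl ^ 2 * N ^ (ε / 2) := by
            rw [mul_pow]
            congr 1
            rw [← Real.rpow_natCast, ← Real.rpow_mul hN0.le]
            congr 1
            push_cast; ring
    rw [hDe]
    have hsplit : N ^ ε = N ^ (ε / 2) * N ^ (ε / 2) := by
      rw [← Real.rpow_add hN0]; congr 1; ring
    have hKN : 0 ≤ (K₀ : ℝ) * N ^ (7 / 5 : ℝ) := by positivity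
    calc 803 * C₁ * (CD * N ^ (ε / 2)) * (1 + Real.log (4 * N ^ 2)) ^ 2 *
          (K₀ * N ^ (7 / 5 : ℝ)) ≤
        803 * C₁ * (CD * N ^ (ε / 2)) * (Cl ^ 2 * N ^ (ε / 2)) * (K₀ * N ^ (7 / 5 : ℝ)) := by
          gcongr
      _ = (803 * C₁ * CD * Cl ^ 2) * N ^ ε * (K₀ * N ^ (7 / 5 : ℝ)) := by
          rw [hsplit]; ring
      _ ≤ (4 * ((128 : ℝ) ^ 5) ^ 2 + 803 * C₁ * CD * Cl ^ 2) * N ^ ε *
          (K₀ * N ^ (7 / 5 : ℝ)) := by
          gcongr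
          have : (0 : ℝ) ≤ 4 * ((128 : ℝ) ^ 5) ^ 2 := by positivity
          linarith
  · -- small `N`
    push Not at hbig
    refine (BS_trivial N K₀ Y c₁ c₂ c₃ hN).trans ?_
    have hs2 : Real.sqrt 2 ≤ 2 := by
      rw [Real.sqrt_le_left (by norm_num)]; norm_num
    have h4 : (Y : ℝ) ≤ 2 * (128 : ℝ) ^ 5 := by nlinarith
    have h5 : Real.sqrt 2 * N ≤ 2 * (128 : ℝ) ^ 5 := by nlinarith
    have h6 : (Y : ℝ) * (Real.sqrt 2 * N) ≤ 4 * ((128 : ℝ) ^ 5) ^ 2 := by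
      calc (Y : ℝ) * (Real.sqrt 2 * N) ≤ (2 * (128 : ℝ) ^ 5) * (2 * (128 : ℝ) ^ 5) := by
            gcongr
        _ = 4 * ((128 : ℝ) ^ 5) ^ 2 := by ring
    have h7 : (1 : ℝ) ≤ N ^ ε * N ^ (7 / 5 : ℝ) := by nlinarith
    calc (K₀ : ℝ) * (Y * (Real.sqrt 2 * N)) ≤ K₀ * (4 * ((128 : ℝ) ^ 5) ^ 2) := by gcongr
      _ = (4 * ((128 : ℝ) ^ 5) ^ 2) * K₀ * 1 := by ring
      _ ≤ (4 * ((128 : ℝ) ^ 5) ^ 2 + 803 * C₁ * CD * Cl ^ 2) * K₀ *
          (N ^ ε * N ^ (7 / 5 : ℝ)) := by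
          gcongr
          have : 0 ≤ 803 * C₁ * CD * Cl ^ 2 := by positivity
          linarith
      _ = _ := by ring

end Pool.Agent.H89.Cubic
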