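import Pool.Agent.H98.Cubic.Targets
import Pool.Agent.H98.Cubic.Basic

/-! Module [Ksum] of the cubic moment of Hardy's function. -/

set_option autoImplicit false

open Finset

namespace Pool.Agent.H89.Cubic

open Pool.Agent.H98.Cubic

/-- Abel summation with bounded partial sums. -/
theorem abel_norm (n : ℕ) (u : ℕ → ℂ) (z : ℂ) (B : ℝ)
    (hB : ∀ m : ℕ, ‖∑ i ∈ range m, z ^ i‖ ≤ B) :
    ‖∑ i ∈ range n, u i * z ^ i‖ ≤
      (‖u (n - 1)‖ + ∑ i ∈ range (n - 1), ‖u (i + 1) - u i‖) * B := by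
  have h := Finset.sum_range_by_parts u (fun i => z ^ i) n
  simp only [smul_eq_mul] at h
  rw [h]
  refine (norm_sub_le _ _).trans ?_
  rw [add_mul]
  apply add_le_add
  · rw [norm_mul]
    exact mul_le_mul_of_nonneg_left (hB n) (norm_nonneg _)
  · refine (norm_sum_le _ _).trans ?_
    rw [sum_mul]
    apply sum_le_sum
    intro i _
    rw [norm_mul]
    exact mul_le_mul_of_nonneg_left (hB _) (norm_nonneg _)

theorem norm_ee_sub_one (x : ℝ) : 4 * nd x ≤ ‖ee x - 1‖ := by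
  obtain ⟨n, hn⟩ := exists_int_nd x
  set y : ℝ := x - n with hy
  have h1 : ee x = ee y := by
    have : x = y + n := by rw [hy]; ring
    rw [this, ee_add_int]
  have hyl : |y| ≤ 1 / 2 := by rw [← hn]; exact nd_le_half x
  rw [h1, hn]
  have h2 : ee y = Complex.exp (Complex.I * ((2 * Real.pi * y : ℝ) : ℂ)) := by
    unfold ee ei; rw [mul_comm]
  rw [h2, Complex.norm_exp_I_mul_ofReal_sub_one]
  have h3 : 2 * Real.pi * y / 2 = Real.pi * y := by ring
  rw [h3, norm_mul, Real.norm_eq_abs, Real.norm_eq_abs]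
  have h4 : |Real.sin (Real.pi * y)| = Real.sin (Real.pi * |y|) := by
    rcases le_total 0 y with h | h
    · rw [abs_of_nonneg h]
      apply abs_of_nonneg
      apply Real.sin_nonneg_of_nonneg_of_le_pi
      · positivity
      · have := abs_le.mp hyl
        nlinarith [Real.pi_pos]
    · rw [abs_of_nonpos h, mul_neg, Real.sin_neg]
      apply abs_of_nonpos
      have h5 : 0 ≤ Real.sin (-(Real.pi * y)) := by
        apply Real.sin_nonneg_of_nonneg_of_le_pi
        · nlinarith [Real.pi_pos]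
        · have := abs_le.mp hyl
          nlinarith [Real.pi_pos]
      rw [Real.sin_neg] at h5
      linarith
  rw [h4]
  have h5 := Real.mul_le_sin (x := Real.pi * |y|) (by positivity)
    (by nlinarith [Real.pi_pos])
  have h6 : 2 / Real.pi * (Real.pi * |y|) = 2 * |y| := by
    field_simp [Real.pi_ne_zero]
  rw [h6] at h5
  have h7 : |(2 : ℝ)| = 2 := by norm_num
  rw [h7]
  linarith

/-- the geometric sum. -/
theorem geom_bound (x : ℝ) (hx : 0 < nd x) (m : ℕ) :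
    ‖∑ i ∈ range m, ee x ^ i‖ ≤ 1 / (2 * nd x) := by
  have h1 := norm_ee_sub_one x
  have h2 : (∑ i ∈ range m, ee x ^ i) * (ee x - 1) = ee x ^ m - 1 := geom_sum_mul _ _
  have h3 : ‖∑ i ∈ range m, ee x ^ i‖ * ‖ee x - 1‖ ≤ 2 := by
    rw [← norm_mul, h2]
    refine (norm_sub_le _ _).trans ?_
    rw [norm_pow, norm_ee, one_pow, norm_one]
    norm_num
  rw [le_div_iff₀ (by positivity)]
  have h4 : ‖∑ i ∈ range m, ee x ^ i‖ * (4 * nd x) ≤ 2 :=
    (mul_le_mul_of_nonneg_left h1 (norm_nonneg _)).trans h3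
  linarith

/-- The index set is an arithmetic progression. -/
theorem sum_progression (p q K₀ : ℕ) (g : ℤ) (O : Set ℕ) (hq : 1 ≤ q) (hpq : Nat.Coprime p q)
    (hO : O.OrdConnected) (S : Finset ℕ)
    (hS : ∀ k, k ∈ S ↔ k ∈ Ico K₀ (2 * K₀) ∧ (q : ℤ) ∣ (p : ℤ) * k + g ∧ k ∈ O)
    (hne : S.Nonempty) :
    ∃ k₀ n : ℕ, 0 < n ∧ K₀ ≤ k₀ ∧ k₀ + q * (n - 1) < 2 * K₀ ∧
      ∀ F : ℕ → ℂ, ∑ k ∈ S, F k = ∑ m ∈ range n, F (k₀ + q * m) := by
  classical
  set k₀ := S.min' hne with hk0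
  set k₁ := S.max' hne with hk1
  have h0 : k₀ ∈ S := S.min'_mem hne
  have h1 : k₁ ∈ S := S.max'_mem hne
  have hle : ∀ k ∈ S, k₀ ≤ k := fun k hk => S.min'_le k hk
  have hge : ∀ k ∈ S, k ≤ k₁ := fun k hk => S.le_max' k hk
  have hdiv : ∀ k ∈ S, q ∣ k - k₀ := by
    intro k hk
    have a1 := ((hS k).mp hk).2.1
    have a2 := ((hS k₀).mp h0).2.1
    have a3 : (q : ℤ) ∣ (p : ℤ) * ((k : ℤ) - k₀) := by
      have := dvd_sub a1 a2
      have e : (p : ℤ) * k + g - ((p : ℤ) * k₀ + g) = (p : ℤ) * ((k : ℤ) - k₀) := by ring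
      rwa [e] at this
    have a4 : (q : ℤ) ∣ ((k : ℤ) - k₀) := by
      have hc : IsCoprime (q : ℤ) (p : ℤ) := by
        rw [Nat.isCoprime_iff_coprime]; exact hpq.symm
      exact hc.dvd_of_dvd_mul_left a3
    have a5 : ((k - k₀ : ℕ) : ℤ) = (k : ℤ) - k₀ := by
      push_cast [Nat.cast_sub (hle k hk)]; ring
    rw [← a5] at a4
    exact_mod_cast a4
  obtain ⟨d, hd⟩ := hdiv k₁ h1
  have hk01 : k₀ ≤ k₁ := hle k₁ h1
  refine ⟨k₀, d + 1, Nat.succ_pos _, (mem_Ico.mp ((hS k₀).mp h0).1).1, ?_, ?_⟩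
  · have e : k₀ + q * (d + 1 - 1) = k₁ := by
      simp only [Nat.add_sub_cancel]
      omega
    rw [e]
    exact (mem_Ico.mp ((hS k₁).mp h1).1).2
  · intro F
    have hSe : S = (range (d + 1)).image (fun m => k₀ + q * m) := by
      ext k
      constructor
      · intro hk
        obtain ⟨m, hm⟩ := hdiv k hk
        rw [mem_image]
        refine ⟨m, ?_, ?_⟩
        · rw [mem_range]
          have b1 := hge k hk
          have b2 := hle k hk
          have b3 : q * m ≤ q * d := by omega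
          have b4 : m ≤ d := Nat.le_of_mul_le_mul_left b3 hq
          omega
        · have b2 := hle k hk
          show k₀ + q * m = k
          omega
      · intro hk
        rw [mem_image] at hk
        obtain ⟨m, hm, rfl⟩ := hk
        rw [mem_range] at hm
        have b3 : q * m ≤ q * d := Nat.mul_le_mul_left q (by omega)
        have b4 : k₀ + q * m ≤ k₁ := by omega
        rw [hS]
        refine ⟨?_, ?_, ?_⟩
        · rw [mem_Ico]
          have c1 := (mem_Ico.mp ((hS k₀).mp h0).1).1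
          have c2 := (mem_Ico.mp ((hS k₁).mp h1).1).2
          omega
        · have a2 := ((hS k₀).mp h0).2.1
          have e : (p : ℤ) * ((k₀ + q * m : ℕ) : ℤ) + g = ((p : ℤ) * k₀ + g) + q * (p * m) := by
            push_cast; ring
          rw [e]
          exact dvd_add a2 (dvd_mul_right _ _)
        · exact hO.out ((hS k₀).mp h0).2.2 ((hS k₁).mp h1).2.2 ⟨by omega, b4⟩
    rw [hSe, sum_image]
    intro a _ b _ hab
    have : q * a = q * b := by
      have : k₀ + q * a = k₀ + q * b := hab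
      omega
    exact Nat.eq_of_mul_eq_mul_left hq this

/-- formula for `ep`. -/
theorem ep_eq (p q : ℕ) (g : ℤ) (k : ℕ) (hp : 1 ≤ p) (hq : 1 ≤ q) (hk : 1 ≤ k) :
    ep p q g k = 2 * p * g * (k + (g : ℝ) / (2 * p)) / ((q : ℝ) ^ 2 * (k : ℝ) ^ 2) := by
  have hp' : (p : ℝ) ≠ 0 := by positivity
  have hq' : (q : ℝ) ≠ 0 := by positivity
  have hk' : (k : ℝ) ≠ 0 := by positivity
  unfold ep
  field_simp
  ring

/-- the amplitude. -/
theorem amp_eq (p q : ℕ) (g : ℤ) (k : ℕ) (hp : 1 ≤ p) (hq : 1 ≤ q) (hk : 1 ≤ k) (hg : g ≠ 0)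
    (hpos : 0 < (k : ℝ) + (g : ℝ) / (2 * p)) :
    1 / Real.sqrt |ep p q g k| =
      q * Real.sqrt ((k : ℝ) ^ 2 / (k + (g : ℝ) / (2 * p)) / (2 * p * |(g : ℝ)|)) := by
  have hp' : (0 : ℝ) < p := by positivity
  have hq' : (0 : ℝ) < q := by positivity
  have hk' : (0 : ℝ) < k := by positivity
  have hg' : (0 : ℝ) < |(g : ℝ)| := abs_pos.mpr (by exact_mod_cast hg)
  set X : ℝ := (k : ℝ) + (g : ℝ) / (2 * p) with hX
  set A : ℝ := (k : ℝ) ^ 2 / X / (2 * p * |(g : ℝ)|) with hA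
  have hA0 : 0 < A := by positivity
  have h1 : |ep p q g k| = ((q * Real.sqrt A) ^ 2)⁻¹ := by
    rw [ep_eq p q g k hp hq hk, mul_pow, Real.sq_sqrt hA0.le, ← hX, abs_div, abs_mul, abs_mul,
      abs_of_pos hpos, abs_of_pos (by positivity : (0 : ℝ) < 2 * p),
      abs_of_pos (by positivity : (0 : ℝ) < (q : ℝ) ^ 2 * (k : ℝ) ^ 2), hA]
    field_simp
  rw [h1, Real.sqrt_inv, Real.sqrt_sq (by positivity)]
  simp

/-- the phase. -/
theorem phase_eq (p q : ℕ) (g r : ℤ) (k : ℕ) (hp : 1 ≤ p) (hq : 1 ≤ q) (hk : 1 ≤ k) (hg : g ≠ 0)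
    (hpos : 0 < (k : ℝ) + (g : ℝ) / (2 * p)) :
    -((r : ℝ) ^ 2) / (8 * (q : ℝ) ^ 4 * ep p q g k) =
      -((r : ℝ) ^ 2 / (16 * p * g * (q : ℝ) ^ 2)) *
        (k - (g : ℝ) / (2 * p) + ((g : ℝ) / (2 * p)) ^ 2 / (k + (g : ℝ) / (2 * p))) := by
  have hp' : (p : ℝ) ≠ 0 := by positivity
  have hq' : (q : ℝ) ≠ 0 := by positivity
  have hk' : (k : ℝ) ≠ 0 := by positivity
  have hg' : (g : ℝ) ≠ 0 := by exact_mod_cast hg
  rw [ep_eq p q g k hp hq hk]
  set h : ℝ := (g : ℝ) / (2 * p) with hh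
  have hX : (k : ℝ) + h ≠ 0 := hpos.ne'
  have e1 : (k : ℝ) - h + h ^ 2 / (k + h) = (k : ℝ) ^ 2 / (k + h) := by
    field_simp
    ring
  rw [e1]
  field_simp
  ring

theorem phi_mono {h x y : ℝ} (hx : |h| ≤ x + h) (hx0 : 0 < x + h) (hxy : x ≤ y) :
    x ^ 2 / (x + h) ≤ y ^ 2 / (y + h) := by
  have hy0 : 0 < y + h := by linarith
  rw [div_le_div_iff₀ hx0 hy0]
  have h1 : h ^ 2 ≤ (x + h) * (y + h) := by
    have : h ^ 2 = |h| * |h| := by rw [← sq, sq_abs]
    rw [this]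
    exact mul_le_mul hx (hx.trans (by linarith)) (abs_nonneg _) hx0.le
  have h2 : y ^ 2 * (x + h) - x ^ 2 * (y + h) = (y - x) * ((x + h) * (y + h) - h ^ 2) := by ring
  nlinarith [mul_nonneg (sub_nonneg.mpr hxy) (sub_nonneg.mpr h1)]

/-- bound for the total variation of the amplitude times the slow part of the phase. -/
theorem tv_bound (n : ℕ) (W s : ℕ → ℝ) (c M : ℝ) (hW0 : ∀ i, 0 ≤ W i)
    (hWm : ∀ i, W i ≤ W (i + 1)) (hWM : ∀ i, i ≤ n → W i ≤ M)
    (hs : ∀ i, s (i + 1) ≤ s i) (hs0 : ∀ i, 0 ≤ s i) :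
    ‖((W n : ℝ) : ℂ) * ee (c * s n)‖ + ∑ i ∈ range n,
      ‖((W (i + 1) : ℝ) : ℂ) * ee (c * s (i + 1)) - ((W i : ℝ) : ℂ) * ee (c * s i)‖ ≤
      2 * M + M * (2 * Real.pi * |c| * s 0) := by
  have hM : 0 ≤ M := (hW0 n).trans (hWM n le_rfl)
  have h1 : ∀ i ∈ range n,
      ‖((W (i + 1) : ℝ) : ℂ) * ee (c * s (i + 1)) - ((W i : ℝ) : ℂ) * ee (c * s i)‖ ≤
        (W (i + 1) - W i) + M * (2 * Real.pi * |c|) * ((-s (i + 1)) - (-s i)) := by
    intro i hi
    have e : ((W (i + 1) : ℝ) : ℂ) * ee (c * s (i + 1)) - ((W i : ℝ) : ℂ) * ee (c * s i) =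
        ((W (i + 1) - W i : ℝ) : ℂ) * ee (c * s (i + 1)) +
          ((W i : ℝ) : ℂ) * (ee (c * s (i + 1)) - ee (c * s i)) := by
      push_cast; ring
    rw [e]
    refine (norm_add_le _ _).trans (add_le_add ?_ ?_)
    · rw [norm_mul, norm_ee, mul_one, Complex.norm_real, Real.norm_eq_abs,
        abs_of_nonneg (sub_nonneg.mpr (hWm i))]
    · rw [norm_mul, Complex.norm_real, Real.norm_eq_abs, abs_of_nonneg (hW0 i)]
      have h2 := norm_ee_sub_le (c * s (i + 1)) (c * s i)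
      have h3 : |c * s (i + 1) - c * s i| = |c| * (s i - s (i + 1)) := by
        rw [← mul_sub, abs_mul, abs_sub_comm, abs_of_nonneg (sub_nonneg.mpr (hs i))]
      rw [h3] at h2
      have h4 := hWM i (mem_range.mp hi).le
      have h5 : 0 ≤ 2 * Real.pi * (|c| * (s i - s (i + 1))) := by
        have := sub_nonneg.mpr (hs i)
        positivity
      calc W i * ‖ee (c * s (i + 1)) - ee (c * s i)‖
          ≤ W i * (2 * Real.pi * (|c| * (s i - s (i + 1)))) :=
            mul_le_mul_of_nonneg_left h2 (hW0 i)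
        _ ≤ M * (2 * Real.pi * (|c| * (s i - s (i + 1)))) :=
            mul_le_mul_of_nonneg_right h4 h5
        _ = M * (2 * Real.pi * |c|) * ((-s (i + 1)) - (-s i)) := by ring
  have h2 : ‖((W n : ℝ) : ℂ) * ee (c * s n)‖ = W n := by
    rw [norm_mul, norm_ee, mul_one, Complex.norm_real, Real.norm_eq_abs, abs_of_nonneg (hW0 n)]
  rw [h2]
  have h3 := sum_le_sum h1
  rw [sum_add_distrib, ← mul_sum, Finset.sum_range_sub W n,
    Finset.sum_range_sub (fun i => -s i) n] at h3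
  have h4 : 0 ≤ M * (2 * Real.pi * |c|) * s n := by
    have := hs0 n
    positivity
  have h5 := hW0 0
  have h6 := hWM n le_rfl
  nlinarith

/-- **[Ksum]** -/
theorem ksum : TKsum := by
  classical
  refine ⟨6, by norm_num, ?_⟩
  intro p q K₀ g r O hq hqp hpq hqK hg hgK hO
  have hp : 1 ≤ p := hq.trans hqp
  have hK : 1 ≤ K₀ := hq.trans hqK
  have hP : (1 : ℝ) ≤ p := by exact_mod_cast hp
  have hQ : (1 : ℝ) ≤ q := by exact_mod_cast hq
  have hKr : (1 : ℝ) ≤ K₀ := by exact_mod_cast hK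
  have hQK : (q : ℝ) ≤ K₀ := by exact_mod_cast hqK
  have hG0 : (0 : ℝ) < |(g : ℝ)| := abs_pos.mpr (by exact_mod_cast hg)
  have hgK' : 2 * |(g : ℝ)| ≤ K₀ := by exact_mod_cast hgK
  set h : ℝ := (g : ℝ) / (2 * p) with hh
  have hhK : |h| ≤ K₀ / 4 := by
    rw [hh, abs_div, abs_of_pos (by positivity : (0 : ℝ) < 2 * p), div_le_iff₀ (by positivity)]
    nlinarith
  set L : ℝ := (K₀ : ℝ) / q with hL
  have hL1 : 1 ≤ L := by rw [hL, le_div_iff₀ (by positivity)]; linarith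
  set E : ℝ := (r : ℝ) ^ 2 * |(g : ℝ)| / ((p : ℝ) ^ 3 * (q : ℝ) ^ 2 * K₀) with hE
  have hE0 : 0 ≤ E := by positivity
  set nn : ℝ := nd ((r : ℝ) ^ 2 / (16 * p * |(g : ℝ)| * q)) with hnn
  have hnn0 : 0 ≤ nn := nd_nonneg _
  set A : ℝ := q * Real.sqrt ((K₀ : ℝ) / (p * |(g : ℝ)|)) with hA
  have hA0 : 0 ≤ A := by positivity
  set S := (Ico K₀ (2 * K₀)).filter (fun k : ℕ => (q : ℤ) ∣ (p : ℤ) * k + g ∧ k ∈ O) with hS
  have hSm : ∀ k, k ∈ S ↔ k ∈ Ico K₀ (2 * K₀) ∧ (q : ℤ) ∣ (p : ℤ) * k + g ∧ k ∈ O := by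
    intro k; rw [hS, mem_filter]
  have hrhs0 : 0 ≤ 6 * A * (L / (1 + L * nn / (1 + E))) := by positivity
  rcases S.eq_empty_or_nonempty with hemp | hne
  · rw [hemp, sum_empty, norm_zero]
    exact hrhs0
  obtain ⟨k₀, n, hn, hk0, hkn, hsum⟩ := sum_progression p q K₀ g O hq hpq hO S hSm hne
  rw [hsum]
  have hk0r : (K₀ : ℝ) ≤ k₀ := by exact_mod_cast hk0
  -- abbreviations
  set θ : ℝ := (r : ℝ) ^ 2 / (16 * p * g * (q : ℝ) ^ 2) with hθ
  set x : ℕ → ℝ := fun m => (k₀ : ℝ) + q * m with hx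
  have hxK : ∀ m, (K₀ : ℝ) ≤ x m := fun m => by
    have : (0 : ℝ) ≤ q * m := by positivity
    simp only [hx]; linarith
  have hxmono : ∀ m, x m ≤ x (m + 1) := fun m => by
    simp only [hx]; push_cast; nlinarith
  have hxh : ∀ m, 3 / 4 * (K₀ : ℝ) ≤ x m + h := fun m => by
    have := hxK m; have := abs_le.mp hhK; linarith
  have hxh0 : ∀ m, 0 < x m + h := fun m => by
    have := hxh m; linarith
  have hxh1 : ∀ m, |h| ≤ x m + h := fun m => by
    have := hxh m; linarith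
  set W : ℕ → ℝ := fun m => q * Real.sqrt (x m ^ 2 / (x m + h) / (2 * p * |(g : ℝ)|)) with hW
  set s : ℕ → ℝ := fun m => 1 / (x m + h) with hs
  set c : ℝ := -(θ * h ^ 2) with hc
  set z : ℂ := ee (-(θ * q)) with hz
  have hterm : ∀ m ∈ range n, ((1 / Real.sqrt |ep p q g (k₀ + q * m)| : ℝ) : ℂ) *
      ee (-((r : ℝ) ^ 2) / (8 * (q : ℝ) ^ 4 * ep p q g (k₀ + q * m))) =
      ee (-(θ * (k₀ - h))) * ((((W m : ℝ) : ℂ) * ee (c * s m)) * z ^ m) := by
    intro m _
    have hcast : ((k₀ + q * m : ℕ) : ℝ) = x m := by simp only [hx]; push_cast; ring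
    have hk1 : 1 ≤ k₀ + q * m := by omega
    have hpos : 0 < ((k₀ + q * m : ℕ) : ℝ) + (g : ℝ) / (2 * p) := by
      rw [hcast]; exact hxh0 m
    rw [amp_eq p q g _ hp hq hk1 hg hpos, phase_eq p q g r _ hp hq hk1 hg hpos, hcast]
    have e : -θ * (x m - h + h ^ 2 / (x m + h)) =
        -(θ * (k₀ - h)) + (c * s m + m * -(θ * q)) := by
      simp only [hc, hs, hx]
      ring
    rw [← hθ, ← hh, e, ee_add, ee_add, hz, ee_pow]
    simp only [hW]
    ring
  rw [sum_congr rfl hterm, ← mul_sum, norm_mul, norm_ee, one_mul]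
  -- maximal amplitude
  set M : ℝ := 2 * A with hM
  have hM0 : 0 ≤ M := by positivity
  have hW0 : ∀ m, 0 ≤ W m := fun m => by simp only [hW]; positivity
  have hWm : ∀ m, W m ≤ W (m + 1) := fun m => by
    simp only [hW]
    apply mul_le_mul_of_nonneg_left _ (by positivity)
    apply Real.sqrt_le_sqrt
    apply div_le_div_of_nonneg_right _ (by positivity)
    exact phi_mono (hxh1 m) (hxh0 m) (hxmono m)
  have hx2 : ∀ m, m ≤ n - 1 → x m ≤ 2 * K₀ := fun m hm => by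
    have h1 : k₀ + q * m ≤ 2 * K₀ := by
      have : q * m ≤ q * (n - 1) := Nat.mul_le_mul_left q hm
      omega
    have h2 : ((k₀ + q * m : ℕ) : ℝ) ≤ ((2 * K₀ : ℕ) : ℝ) := by exact_mod_cast h1
    simp only [hx]
    push_cast at h2
    linarith
  have hWM : ∀ m, m ≤ n - 1 → W m ≤ M := fun m hm => by
    simp only [hW, hM, hA]
    have h1 : 2 * (↑q * Real.sqrt ((K₀ : ℝ) / (p * |(g : ℝ)|))) =
        q * Real.sqrt (4 * ((K₀ : ℝ) / (p * |(g : ℝ)|))) := by
      rw [Real.sqrt_mul (by norm_num : (0 : ℝ) ≤ 4)]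
      have : Real.sqrt 4 = 2 := by
        rw [show (4 : ℝ) = 2 ^ 2 by norm_num, Real.sqrt_sq (by norm_num)]
      rw [this]; ring
    rw [h1]
    apply mul_le_mul_of_nonneg_left _ (by positivity)
    apply Real.sqrt_le_sqrt
    rw [div_le_iff₀ (by positivity)]
    have h2 : 4 * ((K₀ : ℝ) / (p * |(g : ℝ)|)) * (2 * p * |(g : ℝ)|) = 8 * K₀ := by
      field_simp
      ring
    rw [h2, div_le_iff₀ (hxh0 m)]
    have h3 := hx2 m hm
    have h4 := hxK m
    have h5 := hxh m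
    have h6 := abs_le.mp hhK
    nlinarith
  have hs0 : ∀ m, 0 ≤ s m := fun m => by
    simp only [hs]; exact (div_pos one_pos (hxh0 m)).le
  have hsm : ∀ m, s (m + 1) ≤ s m := fun m => by
    simp only [hs]
    apply one_div_le_one_div_of_le (hxh0 m)
    have := hxmono m
    linarith
  have htv := tv_bound (n - 1) W s c M hW0 hWm hWM hsm hs0
  -- total variation of the phase
  have hcs : 2 * Real.pi * |c| * s 0 ≤ 2 * E := by
    have h1 : |c| = (r : ℝ) ^ 2 * |(g : ℝ)| / (64 * (p : ℝ) ^ 3 * (q : ℝ) ^ 2) := by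
      rw [hc, abs_neg, abs_mul, abs_of_nonneg (sq_nonneg h), hθ, abs_div,
        abs_of_nonneg (sq_nonneg (r : ℝ)), abs_mul, abs_mul,
        abs_of_pos (by positivity : (0 : ℝ) < 16 * p),
        abs_of_pos (by positivity : (0 : ℝ) < (q : ℝ) ^ 2), hh, div_pow, ← sq_abs (g : ℝ)]
      field_simp
      ring
    have h2 : s 0 ≤ 4 / (3 * K₀) := by
      simp only [hs]
      rw [div_le_div_iff₀ (hxh0 0) (by positivity)]
      have := hxh 0
      linarith
    have h3 : |c| * s 0 ≤ E / 48 := by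
      calc |c| * s 0 ≤ |c| * (4 / (3 * K₀)) := mul_le_mul_of_nonneg_left h2 (abs_nonneg _)
        _ = E / 48 := by
          rw [h1, hE]; field_simp; ring
    have h4 := Real.pi_le_four
    have h5 : 0 ≤ |c| * s 0 := mul_nonneg (abs_nonneg _) (hs0 0)
    calc 2 * Real.pi * |c| * s 0 = 2 * Real.pi * (|c| * s 0) := by ring
      _ ≤ 2 * 4 * (|c| * s 0) := by nlinarith
      _ ≤ 2 * E := by linarith
  have htv2 : ‖((W (n - 1) : ℝ) : ℂ) * ee (c * s (n - 1))‖ + ∑ i ∈ range (n - 1),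
      ‖((W (i + 1) : ℝ) : ℂ) * ee (c * s (i + 1)) - ((W i : ℝ) : ℂ) * ee (c * s i)‖ ≤
      2 * M * (1 + E) := by
    refine htv.trans ?_
    have := mul_le_mul_of_nonneg_left hcs hM0
    linarith
  set X : ℝ := ‖∑ m ∈ range n, (((W m : ℝ) : ℂ) * ee (c * s m)) * z ^ m‖ with hX
  have hX0 : 0 ≤ X := norm_nonneg _
  -- trivial bound
  have hX1 : X ≤ 2 * L * M := by
    have h1 : X ≤ ∑ m ∈ range n, M := by
      rw [hX]
      refine (norm_sum_le _ _).trans (sum_le_sum ?_)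
      intro m hm
      rw [norm_mul, norm_mul, norm_pow, hz, norm_ee, norm_ee, one_pow, mul_one, mul_one,
        Complex.norm_real, Real.norm_eq_abs, abs_of_nonneg (hW0 m)]
      have := mem_range.mp hm
      exact hWM m (by omega)
    rw [sum_const, card_range, nsmul_eq_mul] at h1
    have h2 : (n : ℝ) ≤ 2 * L := by
      have h3 : q * (n - 1) ≤ K₀ := by omega
      have h4 : ((q * (n - 1) : ℕ) : ℝ) ≤ (K₀ : ℝ) := by exact_mod_cast h3
      rw [Nat.cast_mul, Nat.cast_sub hn] at h4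
      have h5 : ((n : ℝ) - 1) ≤ L := by
        rw [hL, le_div_iff₀ (by positivity)]
        push_cast at h4
        linarith
      linarith
    calc X ≤ n * M := h1
      _ ≤ 2 * L * M := mul_le_mul_of_nonneg_right h2 hM0
  -- bound by the geometric series
  have hX2 : X * nn ≤ M * (1 + E) := by
    have hnd : nd (-(θ * q)) = nn := by
      rw [nd_neg, hnn, hθ]
      rcases abs_cases (g : ℝ) with ⟨hg1, _⟩ | ⟨hg1, _⟩
      · rw [hg1]; congr 1
        have : (g : ℝ) ≠ 0 := by exact_mod_cast hg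
        field_simp
      · rw [hg1, ← nd_neg]; congr 1
        have : (g : ℝ) ≠ 0 := by exact_mod_cast hg
        field_simp
    rcases hnn0.lt_or_eq with hpos | hz0
    · have h1 := abel_norm n (fun m => ((W m : ℝ) : ℂ) * ee (c * s m)) z (1 / (2 * nn))
        (fun m => by rw [hz, ← hnd]; exact geom_bound _ (by rw [hnd]; exact hpos) m)
      have h2 : X ≤ 2 * M * (1 + E) * (1 / (2 * nn)) :=
        h1.trans (mul_le_mul_of_nonneg_right htv2 (by positivity))
      calc X * nn ≤ 2 * M * (1 + E) * (1 / (2 * nn)) * nn :=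
            mul_le_mul_of_nonneg_right h2 hnn0
        _ = M * (1 + E) := by field_simp
    · rw [← hz0, mul_zero]
      positivity
  -- conclusion
  have hV : 0 < 1 + E := by linarith
  have hden : 0 < 1 + L * nn / (1 + E) := by positivity
  rw [← mul_div_assoc, le_div_iff₀ hden]
  have h1 : X * (L * nn / (1 + E)) ≤ L * M := by
    rw [← mul_div_assoc, div_le_iff₀ hV]
    calc X * (L * nn) = L * (X * nn) := by ring
      _ ≤ L * (M * (1 + E)) := mul_le_mul_of_nonneg_left hX2 (by linarith)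
      _ = L * M * (1 + E) := by ring
  calc X * (1 + L * nn / (1 + E)) = X + X * (L * nn / (1 + E)) := by ring
    _ ≤ 2 * L * M + L * M := add_le_add hX1 h1
    _ = 6 * A * L := by rw [hM]; ring

end Pool.Agent.H89.Cubic
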